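import Mathlib

/-!
# MP_2b0b8a_al : finite subgroups of cactus groups

The cactus group `J_10` has a finite subgroup of order at least `256`, while every iterated
wreath product `W(r_1, …, r_s)` with all `r_k ≥ 2` and `r_1 ⋯ r_s ≤ 5` has order at most `128`.
-/

namespace Pool.Agent.Results.MP_2b0b8a_al.OrderInTen

/-- The index set of the generators of `J_n`: pairs `(p, q)` with `1 ≤ p < q ≤ n`. -/
abbrev Gen (n : ℕ) : Type := {x : ℕ × ℕ // 1 ≤ x.1 ∧ x.1 < x.2 ∧ x.2 ≤ n}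

/-- The word `s_{p,q}` of the free group on the generators. -/
def s {n : ℕ} (x : Gen n) : FreeGroup (Gen n) := FreeGroup.of x

/-- The defining relations of the cactus group `J_n`. -/
inductive Rel (n : ℕ) : FreeGroup (Gen n) → Prop
  /-- `s_{p,q} ^ 2 = 1`. -/
  | sq (x : Gen n) : Rel n (s x * s x)
  /-- `s_{p,q} s_{m,r} = s_{m,r} s_{p,q}` if `[p,q]` and `[m,r]` are disjoint. -/
  | comm (x y : Gen n) (h : Disjoint (Finset.Icc x.1.1 x.1.2) (Finset.Icc y.1.1 y.1.2)) :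
      Rel n ((s x * s y) * (s y * s x)⁻¹)
  /-- `s_{p,q} s_{m,r} = s_{p+q-r,p+q-m} s_{p,q}` if `[m,r] ⊆ [p,q]`. -/
  | nest (x y z : Gen n) (h : Finset.Icc y.1.1 y.1.2 ⊆ Finset.Icc x.1.1 x.1.2)
      (h1 : z.1.1 = x.1.1 + x.1.2 - y.1.2) (h2 : z.1.2 = x.1.1 + x.1.2 - y.1.1) :
      Rel n ((s x * s y) * (s z * s x)⁻¹)

/-- The cactus group `J_n`. -/
abbrev Cactus (n : ℕ) : Type := PresentedGroup {w : FreeGroup (Gen n) | Rel n w}

/-- The automorphism of `A ^ r` reversing the order of the coordinates. -/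
def revAut (A : Type) [Group A] (r : ℕ) : MulAut (Fin r → A) where
  toFun a i := a i.rev
  invFun a i := a i.rev
  left_inv a := by funext i; simp
  right_inv a := by funext i; simp
  map_mul' a b := rfl

lemma revAut_sq (A : Type) [Group A] (r : ℕ) : revAut A r ^ 2 = 1 := by
  ext a i
  simp [sq, revAut, MulAut.mul_apply]

/-- The action of `ℤ/2ℤ` on `A ^ r` whose nontrivial element reverses the coordinates. -/
def revAct (A : Type) [Group A] (r : ℕ) : Multiplicative (ZMod 2) →* MulAut (Fin r → A) :=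
  AddMonoidHom.toMultiplicativeLeft
    (ZMod.lift 2 ⟨zmultiplesHom (Additive (MulAut (Fin r → A))) (Additive.ofMul (revAut A r)), by
      simp only [zmultiplesHom_apply]
      rw [← ofMul_zpow]
      have := revAut_sq A r
      simp only [Nat.cast_ofNat]
      rw [show (2 : ℤ) = ((2 : ℕ) : ℤ) from rfl, zpow_natCast, this]
      rfl⟩)

/-- `A ≀_r ℤ/2ℤ`, the semidirect product of `A ^ r` and `ℤ/2ℤ`. -/
abbrev Wr (A : Type) [Group A] (r : ℕ) : Type :=
  (Fin r → A) ⋊[revAct A r] Multiplicative (ZMod 2)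

/-- The iterated product `W(r_1, …, r_s)`, starting with `ℤ/2ℤ` and applying the operations
`≀_{r_1} ℤ/2ℤ`, …, `≀_{r_s} ℤ/2ℤ` one after another. -/
def W (l : List ℕ) : GrpCat.{0} :=
  l.foldl (fun (G : GrpCat.{0}) (r : ℕ) => GrpCat.of (Wr G r)) (GrpCat.of (Multiplicative (ZMod 2)))

/-! ## The order of `W(r_1, …, r_s)` -/

lemma revAct_one (A : Type) [Group A] (r : ℕ) :
    revAct A r (Multiplicative.ofAdd 1) = revAut A r := by
  change (ZMod.lift 2 _ ((1 : ℤ) : ZMod 2) : Additive (MulAut (Fin r → A))).toMul = _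
  rw [ZMod.lift_coe]
  simp

lemma card_Wr (A : Type) [Group A] (r : ℕ) : Nat.card (Wr A r) = Nat.card A ^ r * 2 := by
  rw [Nat.card_congr SemidirectProduct.equivProd, Nat.card_prod, Nat.card_fun]
  simp

lemma card_fold (l : List ℕ) (G : GrpCat.{0}) (hG : 0 < Nat.card G) :
    Nat.card (l.foldl (fun (G : GrpCat.{0}) (r : ℕ) => GrpCat.of (Wr G r)) G : GrpCat.{0}) =
      l.foldl (fun c r => c ^ r * 2) (Nat.card G) := by
  induction l generalizing G with
  | nil => rfl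
  | cons r l ih =>
    simp only [List.foldl_cons]
    have h : Nat.card (GrpCat.of (Wr G r)) = Nat.card G ^ r * 2 := card_Wr G r
    rw [ih _ (by rw [h]; positivity), h]

lemma card_W (l : List ℕ) : Nat.card (W l) = l.foldl (fun c r => c ^ r * 2) 2 := by
  have h : Nat.card (GrpCat.of (Multiplicative (ZMod 2))) = 2 := by
    change Nat.card (Multiplicative (ZMod 2)) = 2
    simp
  unfold W
  rw [card_fold _ _ (by rw [h]; norm_num), h]

lemma card_W_le (l : List ℕ) (h2 : ∀ r ∈ l, 2 ≤ r) (h : 2 * l.prod ≤ 10) :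
    Nat.card (W l) ≤ 128 ∧ 0 < Nat.card (W l) := by
  rw [card_W]
  match l, h2, h with
  | [], _, _ => simp
  | [a], h2, h =>
    have ha := h2 a (by simp)
    simp only [List.prod_cons, List.prod_nil, mul_one] at h
    have ha5 : a ≤ 5 := by omega
    interval_cases a <;> simp
  | [a, b], h2, h =>
    have ha := h2 a (by simp)
    have hb := h2 b (by simp)
    simp only [List.prod_cons, List.prod_nil, mul_one] at h
    have ha' : a = 2 := by nlinarith
    subst ha'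
    have hb' : b = 2 := by omega
    subst hb'
    simp
  | a :: b :: c :: t, h2, h =>
    exfalso
    have ha := h2 a (by simp)
    have hb := h2 b (by simp)
    have hc := h2 c (by simp)
    have ht : 1 ≤ t.prod := by
      apply List.one_le_prod_of_one_le
      intro x hx
      have := h2 x (by simp [hx])
      omega
    simp only [List.prod_cons] at h
    have h1 : 2 * 2 * 2 * 1 ≤ a * b * c * t.prod := by gcongr
    have h3 : a * (b * (c * t.prod)) = a * b * c * t.prod := by ring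
    omega

/-! ## A finite subgroup of `J_10` -/

/-- The generator `s_{p,q}` of `J_10`. -/
def g (p q : ℕ) (h : 1 ≤ p ∧ p < q ∧ q ≤ 10) : Cactus 10 := PresentedGroup.of ⟨(p, q), h⟩

lemma g_sq (p q : ℕ) (h : 1 ≤ p ∧ p < q ∧ q ≤ 10) : g p q h * g p q h = 1 := by
  have := PresentedGroup.one_of_mem (rels := {w : FreeGroup (Gen 10) | Rel 10 w})
    (Rel.sq (⟨(p, q), h⟩ : Gen 10))
  rw [map_mul] at this
  exact this

lemma g_comm (p q m r : ℕ) (h : 1 ≤ p ∧ p < q ∧ q ≤ 10) (h' : 1 ≤ m ∧ m < r ∧ r ≤ 10)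
    (hd : q < m ∨ r < p) : g p q h * g m r h' = g m r h' * g p q h := by
  have := PresentedGroup.one_of_mem (rels := {w : FreeGroup (Gen 10) | Rel 10 w})
    (Rel.comm (⟨(p, q), h⟩ : Gen 10) ⟨(m, r), h'⟩ (by
      rw [Finset.disjoint_left]
      intro a ha hb
      simp only [Finset.mem_Icc] at ha hb
      omega))
  rw [map_mul, map_inv, mul_inv_eq_one, map_mul, map_mul] at this
  exact this

lemma g_nest (p q m r : ℕ) (h : 1 ≤ p ∧ p < q ∧ q ≤ 10) (h' : 1 ≤ m ∧ m < r ∧ r ≤ 10)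
    (hn : p ≤ m ∧ r ≤ q) (m' r' : ℕ) (h'' : 1 ≤ m' ∧ m' < r' ∧ r' ≤ 10)
    (e1 : m' = p + q - r) (e2 : r' = p + q - m) :
    g p q h * g m r h' = g m' r' h'' * g p q h := by
  have := PresentedGroup.one_of_mem (rels := {w : FreeGroup (Gen 10) | Rel 10 w})
    (Rel.nest (⟨(p, q), h⟩ : Gen 10) ⟨(m, r), h'⟩ ⟨(m', r'), h''⟩ (by
      intro a ha
      simp only [Finset.mem_Icc] at ha ⊢
      omega) e1 e2)
  rw [map_mul, map_inv, mul_inv_eq_one, map_mul, map_mul] at this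
  exact this

/-- The involutive permutation of `ℕ` reversing `[p, q]`. -/
def revN (p q x : ℕ) : ℕ := if p ≤ x ∧ x ≤ q then p + q - x else x

lemma revN_revN (p q x : ℕ) : revN p q (revN p q x) = x := by
  unfold revN
  split_ifs <;> omega

/-- The permutation of `ℕ` reversing `[p, q]`. -/
def revPerm (x : Gen 10) : Equiv.Perm ℕ where
  toFun := revN x.1.1 x.1.2
  invFun := revN x.1.1 x.1.2
  left_inv := revN_revN _ _
  right_inv := revN_revN _ _

lemma revPerm_apply (x : Gen 10) (v : ℕ) : revPerm x v = revN x.1.1 x.1.2 v := rfl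

lemma rels_hold : ∀ w ∈ {w : FreeGroup (Gen 10) | Rel 10 w}, FreeGroup.lift revPerm w = 1 := by
  intro w hw
  rcases hw with ⟨x⟩ | ⟨x, y, h⟩ | ⟨x, y, z, h, h1, h2⟩
  · simp only [s, map_mul, FreeGroup.lift_apply_of]
    ext1 v
    exact revN_revN _ _ v
  · simp only [s, map_mul, map_inv, FreeGroup.lift_apply_of]
    rw [mul_inv_eq_one]
    ext1 v
    simp only [Equiv.Perm.mul_apply, revPerm_apply]
    have hx := x.2.2.1
    have hy := y.2.2.1
    rw [Finset.disjoint_left] at h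
    have := @h (max x.1.1 y.1.1)
    simp only [Finset.mem_Icc] at this
    unfold revN
    split_ifs <;> omega
  · simp only [s, map_mul, map_inv, FreeGroup.lift_apply_of]
    rw [mul_inv_eq_one]
    ext1 v
    simp only [Equiv.Perm.mul_apply, revPerm_apply]
    have hx := x.2.2.1
    have hy := y.2.2.1
    have hn : x.1.1 ≤ y.1.1 ∧ y.1.2 ≤ x.1.2 := by
      rw [Finset.Icc_subset_Icc_iff (by omega)] at h
      exact h
    rw [h1, h2]
    unfold revN
    split_ifs <;> omega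

/-- The action of `J_10` on positions. -/
noncomputable def Φ : Cactus 10 →* Equiv.Perm ℕ :=
  PresentedGroup.toGroup rels_hold

lemma Φ_g (p q : ℕ) (h : 1 ≤ p ∧ p < q ∧ q ≤ 10) (v : ℕ) :
    Φ (g p q h) v = revN p q v := by
  unfold Φ g
  rw [PresentedGroup.toGroup.of]
  rfl

/-- The eight generators of the finite subgroup. -/
def x : Fin 8 → Cactus 10
  | 0 => g 1 2 (by norm_num)
  | 1 => g 3 4 (by norm_num)
  | 2 => g 5 6 (by norm_num)
  | 3 => g 7 8 (by norm_num)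
  | 4 => g 1 4 (by norm_num)
  | 5 => g 5 8 (by norm_num)
  | 6 => g 1 8 (by norm_num)
  | 7 => g 9 10 (by norm_num)

/-- `a` to the power of a Boolean. -/
def bp (a : Cactus 10) (b : Bool) : Cactus 10 := if b then a else 1

/-- The normal form. -/
def w (v : Fin 8 → Bool) : Cactus 10 :=
  bp (x 0) (v 0) * (bp (x 1) (v 1) * (bp (x 2) (v 2) * (bp (x 3) (v 3) *
    (bp (x 4) (v 4) * (bp (x 5) (v 5) * (bp (x 6) (v 6) * bp (x 7) (v 7)))))))

lemma step {a b c : Cactus 10} (h : a * b = c * a) (β : Bool) (z : Cactus 10) :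
    a * (bp b β * z) = bp c β * (a * z) := by
  cases β
  · simp [bp]
  · simp only [bp, if_true]
    rw [← mul_assoc, h, mul_assoc]

lemma absorb {a : Cactus 10} (h : a * a = 1) (β : Bool) (z : Cactus 10) :
    a * (bp a β * z) = bp a (!β) * z := by
  cases β
  · simp [bp]
  · simp [bp, ← mul_assoc, h]

lemma bcomm {a b : Cactus 10} (h : a * b = b * a) (α β : Bool) (z : Cactus 10) :
    bp a α * (bp b β * z) = bp b β * (bp a α * z) := by
  cases α
  · simp [bp]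
  · simp only [bp, if_true]
    exact step h β z

lemma c01 : x 0 * x 1 = x 1 * x 0 := g_comm 1 2 3 4 _ _ (by norm_num)
lemma c02 : x 0 * x 2 = x 2 * x 0 := g_comm 1 2 5 6 _ _ (by norm_num)
lemma c03 : x 0 * x 3 = x 3 * x 0 := g_comm 1 2 7 8 _ _ (by norm_num)
lemma c05 : x 0 * x 5 = x 5 * x 0 := g_comm 1 2 5 8 _ _ (by norm_num)
lemma c07 : x 0 * x 7 = x 7 * x 0 := g_comm 1 2 9 10 _ _ (by norm_num)
lemma c12 : x 1 * x 2 = x 2 * x 1 := g_comm 3 4 5 6 _ _ (by norm_num)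
lemma c13 : x 1 * x 3 = x 3 * x 1 := g_comm 3 4 7 8 _ _ (by norm_num)
lemma c15 : x 1 * x 5 = x 5 * x 1 := g_comm 3 4 5 8 _ _ (by norm_num)
lemma c17 : x 1 * x 7 = x 7 * x 1 := g_comm 3 4 9 10 _ _ (by norm_num)
lemma c23 : x 2 * x 3 = x 3 * x 2 := g_comm 5 6 7 8 _ _ (by norm_num)
lemma c24 : x 2 * x 4 = x 4 * x 2 := g_comm 5 6 1 4 _ _ (by norm_num)
lemma c27 : x 2 * x 7 = x 7 * x 2 := g_comm 5 6 9 10 _ _ (by norm_num)
lemma c34 : x 3 * x 4 = x 4 * x 3 := g_comm 7 8 1 4 _ _ (by norm_num)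
lemma c37 : x 3 * x 7 = x 7 * x 3 := g_comm 7 8 9 10 _ _ (by norm_num)
lemma c45 : x 4 * x 5 = x 5 * x 4 := g_comm 1 4 5 8 _ _ (by norm_num)
lemma c47 : x 4 * x 7 = x 7 * x 4 := g_comm 1 4 9 10 _ _ (by norm_num)
lemma c57 : x 5 * x 7 = x 7 * x 5 := g_comm 5 8 9 10 _ _ (by norm_num)
lemma c67 : x 6 * x 7 = x 7 * x 6 := g_comm 1 8 9 10 _ _ (by norm_num)
lemma n40 : x 4 * x 0 = x 1 * x 4 := g_nest 1 4 1 2 _ _ (by norm_num) 3 4 _ rfl rfl
lemma n41 : x 4 * x 1 = x 0 * x 4 := g_nest 1 4 3 4 _ _ (by norm_num) 1 2 _ rfl rfl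
lemma n52 : x 5 * x 2 = x 3 * x 5 := g_nest 5 8 5 6 _ _ (by norm_num) 7 8 _ rfl rfl
lemma n53 : x 5 * x 3 = x 2 * x 5 := g_nest 5 8 7 8 _ _ (by norm_num) 5 6 _ rfl rfl
lemma n60 : x 6 * x 0 = x 3 * x 6 := g_nest 1 8 1 2 _ _ (by norm_num) 7 8 _ rfl rfl
lemma n61 : x 6 * x 1 = x 2 * x 6 := g_nest 1 8 3 4 _ _ (by norm_num) 5 6 _ rfl rfl
lemma n62 : x 6 * x 2 = x 1 * x 6 := g_nest 1 8 5 6 _ _ (by norm_num) 3 4 _ rfl rfl
lemma n63 : x 6 * x 3 = x 0 * x 6 := g_nest 1 8 7 8 _ _ (by norm_num) 1 2 _ rfl rfl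
lemma n64 : x 6 * x 4 = x 5 * x 6 := g_nest 1 8 1 4 _ _ (by norm_num) 5 8 _ rfl rfl
lemma n65 : x 6 * x 5 = x 4 * x 6 := g_nest 1 8 5 8 _ _ (by norm_num) 1 4 _ rfl rfl

lemma x_sq (i : Fin 8) : x i * x i = 1 := by
  fin_cases i <;> exact g_sq _ _ _

lemma x_w (i : Fin 8) (v : Fin 8 → Bool) : ∃ v', x i * w v = w v' := by
  unfold w
  fin_cases i
  · refine ⟨![!v 0, v 1, v 2, v 3, v 4, v 5, v 6, v 7], ?_⟩
    change x 0 * _ = bp (x 0) (!v 0) * (bp (x 1) (v 1) * (bp (x 2) (v 2) * (bp (x 3) (v 3) *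
      (bp (x 4) (v 4) * (bp (x 5) (v 5) * (bp (x 6) (v 6) * bp (x 7) (v 7)))))))
    rw [absorb (x_sq 0)]
  · refine ⟨![v 0, !v 1, v 2, v 3, v 4, v 5, v 6, v 7], ?_⟩
    change x 1 * _ = bp (x 0) (v 0) * (bp (x 1) (!v 1) * (bp (x 2) (v 2) * (bp (x 3) (v 3) *
      (bp (x 4) (v 4) * (bp (x 5) (v 5) * (bp (x 6) (v 6) * bp (x 7) (v 7)))))))
    rw [step c01.symm, absorb (x_sq 1)]
  · refine ⟨![v 0, v 1, !v 2, v 3, v 4, v 5, v 6, v 7], ?_⟩
    change x 2 * _ = bp (x 0) (v 0) * (bp (x 1) (v 1) * (bp (x 2) (!v 2) * (bp (x 3) (v 3) *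
      (bp (x 4) (v 4) * (bp (x 5) (v 5) * (bp (x 6) (v 6) * bp (x 7) (v 7)))))))
    rw [step c02.symm, step c12.symm, absorb (x_sq 2)]
  · refine ⟨![v 0, v 1, v 2, !v 3, v 4, v 5, v 6, v 7], ?_⟩
    change x 3 * _ = bp (x 0) (v 0) * (bp (x 1) (v 1) * (bp (x 2) (v 2) * (bp (x 3) (!v 3) *
      (bp (x 4) (v 4) * (bp (x 5) (v 5) * (bp (x 6) (v 6) * bp (x 7) (v 7)))))))
    rw [step c03.symm, step c13.symm, step c23.symm, absorb (x_sq 3)]
  · refine ⟨![v 1, v 0, v 2, v 3, !v 4, v 5, v 6, v 7], ?_⟩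
    change x 4 * _ = bp (x 0) (v 1) * (bp (x 1) (v 0) * (bp (x 2) (v 2) * (bp (x 3) (v 3) *
      (bp (x 4) (!v 4) * (bp (x 5) (v 5) * (bp (x 6) (v 6) * bp (x 7) (v 7)))))))
    rw [step n40, step n41, step c24.symm, step c34.symm, absorb (x_sq 4),
      bcomm c01 (v 1) (v 0)]
  · refine ⟨![v 0, v 1, v 3, v 2, v 4, !v 5, v 6, v 7], ?_⟩
    change x 5 * _ = bp (x 0) (v 0) * (bp (x 1) (v 1) * (bp (x 2) (v 3) * (bp (x 3) (v 2) *
      (bp (x 4) (v 4) * (bp (x 5) (!v 5) * (bp (x 6) (v 6) * bp (x 7) (v 7)))))))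
    rw [step c05.symm, step c15.symm, step n52, step n53, step c45.symm, absorb (x_sq 5),
      bcomm c23 (v 3) (v 2)]
  · refine ⟨![v 3, v 2, v 1, v 0, v 5, v 4, !v 6, v 7], ?_⟩
    change x 6 * _ = bp (x 0) (v 3) * (bp (x 1) (v 2) * (bp (x 2) (v 1) * (bp (x 3) (v 0) *
      (bp (x 4) (v 5) * (bp (x 5) (v 4) * (bp (x 6) (!v 6) * bp (x 7) (v 7)))))))
    rw [step n60, step n61, step n62, step n63, step n64, step n65, absorb (x_sq 6),
      bcomm c45 (v 5) (v 4), bcomm c23 (v 1) (v 0), bcomm c13 (v 2) (v 0),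
      bcomm c03 (v 3) (v 0), bcomm c12 (v 2) (v 1), bcomm c02 (v 3) (v 1),
      bcomm c01 (v 3) (v 2)]
  · refine ⟨![v 0, v 1, v 2, v 3, v 4, v 5, v 6, !v 7], ?_⟩
    change x 7 * _ = bp (x 0) (v 0) * (bp (x 1) (v 1) * (bp (x 2) (v 2) * (bp (x 3) (v 3) *
      (bp (x 4) (v 4) * (bp (x 5) (v 5) * (bp (x 6) (v 6) * bp (x 7) (!v 7)))))))
    rw [step c07.symm, step c17.symm, step c27.symm, step c37.symm, step c47.symm,
      step c57.symm, step c67.symm]
    have := absorb (x_sq 7) (v 7) 1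
    rw [mul_one, mul_one] at this
    rw [this]

/-- The finite subgroup. -/
def H : Subgroup (Cactus 10) := Subgroup.closure (Set.range x)

lemma w_mem (v : Fin 8 → Bool) : w v ∈ H := by
  have h : ∀ (i : Fin 8) (β : Bool), bp (x i) β ∈ H := by
    intro i β
    cases β
    · simp [bp, H.one_mem]
    · simp only [bp, if_true]
      exact Subgroup.subset_closure ⟨i, rfl⟩
  unfold w
  exact H.mul_mem (h _ _) (H.mul_mem (h _ _) (H.mul_mem (h _ _) (H.mul_mem (h _ _)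
    (H.mul_mem (h _ _) (H.mul_mem (h _ _) (H.mul_mem (h _ _) (h _ _)))))))

lemma H_sub : (H : Set (Cactus 10)) ⊆ Set.range w := by
  intro a ha
  change a ∈ Subgroup.closure (Set.range x) at ha
  induction ha using Subgroup.closure_induction_left with
  | one => exact ⟨fun _ => false, by simp [w, bp]⟩
  | mul_left y hy z _ ih =>
    obtain ⟨i, rfl⟩ := hy
    obtain ⟨v, rfl⟩ := ih
    obtain ⟨v', hv'⟩ := x_w i v
    exact ⟨v', hv'.symm⟩
  | inv_mul_cancel y hy z _ ih =>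
    obtain ⟨i, rfl⟩ := hy
    obtain ⟨v, rfl⟩ := ih
    obtain ⟨v', hv'⟩ := x_w i v
    refine ⟨v', ?_⟩
    rw [← hv', inv_eq_of_mul_eq_one_left (x_sq i)]

instance H_finite : Finite H :=
  Set.Finite.subset (Set.finite_range w) H_sub

/-- The action of a Boolean power of a generator on positions. -/
def bpN (p q : ℕ) (β : Bool) (z : ℕ) : ℕ := if β then revN p q z else z

/-- The action of the normal form on positions. -/
def wN (v : Fin 8 → Bool) (z : ℕ) : ℕ :=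
  bpN 1 2 (v 0) (bpN 3 4 (v 1) (bpN 5 6 (v 2) (bpN 7 8 (v 3)
    (bpN 1 4 (v 4) (bpN 5 8 (v 5) (bpN 1 8 (v 6) (bpN 9 10 (v 7) z)))))))

lemma Φ_bp (p q : ℕ) (h : 1 ≤ p ∧ p < q ∧ q ≤ 10) (β : Bool) (z : ℕ) :
    Φ (bp (g p q h) β) z = bpN p q β z := by
  cases β
  · simp [bp, bpN]
  · simp only [bp, bpN, if_true]
    exact Φ_g p q h z

lemma Φ_w (v : Fin 8 → Bool) (z : ℕ) : Φ (w v) z = wN v z := by
  unfold w wN
  simp only [map_mul, Equiv.Perm.mul_apply]
  simp only [x, Φ_bp]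

/-- Recovering the parameters from the permutation. -/
def dec (π : ℕ → ℕ) : Fin 8 → Bool :=
  let G : Bool := decide (5 ≤ π 1)
  let E : Bool := decide (3 ≤ π (bpN 1 8 G 1))
  let F : Bool := decide (7 ≤ π (bpN 1 8 G 5))
  ![decide (π (bpN 1 8 G (bpN 1 4 E (bpN 5 8 F 1))) = 2),
    decide (π (bpN 1 8 G (bpN 1 4 E (bpN 5 8 F 3))) = 4),
    decide (π (bpN 1 8 G (bpN 1 4 E (bpN 5 8 F 5))) = 6),
    decide (π (bpN 1 8 G (bpN 1 4 E (bpN 5 8 F 7))) = 8),
    E, F, G, decide (π 9 = 10)]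

lemma dec_wN_aux : ∀ v0 v1 v2 v3 v4 v5 v6 v7 : Bool,
    dec (wN ![v0, v1, v2, v3, v4, v5, v6, v7]) = ![v0, v1, v2, v3, v4, v5, v6, v7] := by
  decide

lemma dec_wN (v : Fin 8 → Bool) : dec (wN v) = v := by
  have h : v = ![v 0, v 1, v 2, v 3, v 4, v 5, v 6, v 7] := by
    funext i
    fin_cases i <;> rfl
  rw [h]
  exact dec_wN_aux _ _ _ _ _ _ _ _

lemma w_injective : Function.Injective w := by
  intro v v' h
  rw [← dec_wN v, ← dec_wN v']
  congr 1
  funext z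
  rw [← Φ_w, ← Φ_w, h]

lemma card_H : 256 ≤ Nat.card H := by
  have h := Nat.card_le_card_of_injective (fun v : Fin 8 → Bool => (⟨w v, w_mem v⟩ : H))
    (fun v v' h => w_injective (congrArg Subtype.val h))
  have h2 : Nat.card (Fin 8 → Bool) = 256 := by simp
  rwa [h2] at h

/-- The cactus group `J_10` contains a finite subgroup which does not embed into any
`W(r_1, …, r_s)` with all `r_k ≥ 2` and `r_1 ⋯ r_s ≤ 5`; hence the proposed description of
the finite subgroups of cactus groups fails. -/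
theorem result :
    (∃ H : Subgroup (Cactus 10), Finite H ∧
      ∀ l : List ℕ, (∀ r ∈ l, 2 ≤ r) → 2 * l.prod ≤ 10 →
        ¬ ∃ f : H →* W l, Function.Injective f) ∧
    ¬ ∀ n : ℕ, 2 ≤ n → ∀ (G : Type) [Group G] [Finite G],
      ((∃ f : G →* Cactus n, Function.Injective f) ↔
        ∃ l : List ℕ, (∀ r ∈ l, 2 ≤ r) ∧ 2 * l.prod ≤ n ∧
          ∃ f : G →* W l, Function.Injective f) := by
  have key : ∀ l : List ℕ, (∀ r ∈ l, 2 ≤ r) → 2 * l.prod ≤ 10 →
      ¬ ∃ f : H →* W l, Function.Injective f := by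
    rintro l h2 hl ⟨f, hf⟩
    obtain ⟨h128, hpos⟩ := card_W_le l h2 hl
    have : Finite (W l) := Nat.finite_of_card_ne_zero hpos.ne'
    have h := Nat.card_le_card_of_injective f hf
    have h' := card_H
    omega
  refine ⟨⟨H, H_finite, key⟩, fun h => ?_⟩
  obtain ⟨l, h2, hl, hf⟩ := (h 10 (by norm_num) H).1 ⟨H.subtype, H.subtype_injective⟩
  exact key l h2 hl hf

end Pool.Agent.Results.MP_2b0b8a_al.OrderInTen
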